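import Pool.Agent.W2helper78.LT.Stm

/-!
Piece EVP of project LT: probabilities of the events of the tube (open and closed dual crossings),
from the crossing bound `hh_wide` and the Harris inequality.
-/

set_option autoImplicit false

namespace W78LT

open H974 Finset H342P H984P H984H TH992.L

namespace EVP

theorem okh : Ok (fun _ : Edg => (1/2:ℝ)) := okq (by norm_num) (by norm_num)

/-- edges of a horizontal crossing in the dual box -/
theorem lre_sub {n : ℕ} {l r c d : ℤ} (h1 : -1 ≤ l) (h2 : r ≤ n) (h3 : 0 ≤ c) (h4 : d + 1 ≤ n) :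
    LRE l r c d ⊆ dmp (RE 0 n 0 n) := by
  have e : LRE l r c d = dmp (TBE (l + 1) r c (d + 1)) := by
    rw [dmp_TBE]; congr 1 <;> ring
  rw [e]
  intro x hx
  rw [mem_dmp] at hx ⊢
  exact RE_subset (by omega) h2 h3 h4 (TBE_subset_RE hx)

/-- edges of a vertical crossing in the dual box -/
theorem tbe_sub {n : ℕ} {l r c d : ℤ} (h1 : 0 ≤ l) (h2 : r + 1 ≤ n) (h3 : -1 ≤ c) (h4 : d ≤ n) :
    TBE l r c d ⊆ dmp (RE 0 n 0 n) := by
  have e : TBE l r c d = dmp (LRE l (r + 1) (c + 1) d) := by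
    rw [dmp_LRE]; congr 1 <;> ring
  rw [e]
  intro x hx
  rw [mem_dmp] at hx ⊢
  exact RE_subset h1 h2 (by omega) h4 (LRE_subset_RE hx)

theorem lr_ge {S : Finset Edg} {l r c d : ℤ} {m : ℕ} (hlr : l < r) (hcd : c < d)
    (hm : r - l ≤ 8 * (d - c) * m + 8 * (d - c)) (hS : LRE l r c d ⊆ S) :
    TH992.T.q0 ^ (2 * m + 1) ≤ PP S (LRc l r c d) := by
  unfold PP
  rw [pr_LRc _ hS]
  exact TH992.T.hh_wide (by omega) (by omega) hm

theorem tb_ge {S : Finset Edg} {l r c d : ℤ} {m : ℕ} (hlr : l < r) (hcd : c < d)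
    (hm : d - c ≤ 8 * (r - l) * m + 8 * (r - l)) (hS : TBE l r c d ⊆ S) :
    TH992.T.q0 ^ (2 * m + 1) ≤ PP S (TBc l r c d) := by
  unfold PP
  rw [pr_TBc _ hS]
  exact TH992.T.hh_wide (by omega) (by omega) hm

theorem lr_ge0 {S : Finset Edg} {l r c d : ℤ} (hlr : l < r) (hcd : c < d)
    (hm : r - l ≤ 8 * (d - c)) (hS : LRE l r c d ⊆ S) :
    TH992.T.q0 ≤ PP S (LRc l r c d) := by
  have := lr_ge (m := 0) hlr hcd (by push_cast; omega) hS
  simpa using this

theorem tb_ge0 {S : Finset Edg} {l r c d : ℤ} (hlr : l < r) (hcd : c < d)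
    (hm : d - c ≤ 8 * (r - l)) (hS : TBE l r c d ⊆ S) :
    TH992.T.q0 ≤ PP S (TBc l r c d) := by
  have := tb_ge (m := 0) hlr hcd (by push_cast; omega) hS
  simpa using this

/-- Harris, for lower bounds -/
theorem and_ge {S : Finset Edg} {A B : Finset Edg → Prop} {x y : ℝ} (hA : IncrE S A)
    (hB : IncrE S B) (hx : 0 ≤ x) (hy : 0 ≤ y) (h1 : x ≤ PP S A) (h2 : y ≤ PP S B) :
    x * y ≤ PP S (fun F => A F ∧ B F) :=
  (mul_le_mul h1 h2 hy (hx.trans h1)).trans (Pr_harris okh hA hB)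

theorem and_incr {S : Finset Edg} {A B : Finset Edg → Prop} (hA : IncrE S A) (hB : IncrE S B) :
    IncrE S (fun F => A F ∧ B F) :=
  fun F G h h' hF => ⟨hA F G h h' hF.1, hB F G h h' hF.2⟩

theorem dual_eq (S : Finset Edg) (A : Finset Edg → Prop) :
    PP S (fun F => A (dmp (S \ F))) = PP (dmp S) A := by
  have e := H12S.pr_dual (q := 1/2) S A
  have e1 : (1:ℝ) - 1/2 = 1/2 := by norm_num
  rw [e1] at e
  exact e

/-- many vertical strips -/
theorem vstrips {S : Finset Edg} {l r h : ℤ} {m : ℕ} (hlr : l < r) (hh0 : 1 ≤ h)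
    (hm : r - l ≤ 8 * h * m + 8 * h) (g : ℕ → ℤ) (I : ℕ)
    (hS : ∀ i < I, TBE (g i) (g i + h) l r ⊆ S) :
    TH992.T.q0 ^ ((2 * m + 1) * I) ≤ PP S (fun F => ∀ i < I, TBc (g i) (g i + h) l r F) := by
  induction I with
  | zero =>
    rw [Nat.mul_zero, pow_zero]
    refine le_of_eq ?_
    symm
    exact Pr_true _ (fun F _ i hi => absurd hi (Nat.not_lt_zero i))
  | succ I ih =>
    have ih' := ih (fun i hi => hS i (by omega))
    have e : g I + h - g I = h := by ring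
    have h1 : TH992.T.q0 ^ (2 * m + 1) ≤ PP S (TBc (g I) (g I + h) l r) :=
      tb_ge (by omega) hlr (by rw [e]; exact hm) (hS I (by omega))
    have h3 : 0 ≤ TH992.T.q0 ^ (2 * m + 1) := pow_nonneg TH992.T.q0_pos.le _
    have h2 := and_ge (S := S) (A := fun F => ∀ i < I, TBc (g i) (g i + h) l r F)
      (B := TBc (g I) (g I + h) l r)
      (fun F G h h' hF i hi => TBc_incr S _ _ _ _ F G h h' (hF i hi)) (TBc_incr S _ _ _ _)
      (pow_nonneg TH992.T.q0_pos.le _) h3 ih' h1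
    rw [Nat.mul_succ, pow_add]
    refine h2.trans ?_
    refine Pr_mono okh fun F _ hF i hi => ?_
    rcases Nat.lt_succ_iff_lt_or_eq.mp hi with h4 | h4
    · exact hF.1 i h4
    · rw [h4]; exact hF.2

end EVP

open EVP

theorem evp : St_EVP := by
  have q0 := TH992.T.q0_pos
  have q1 := TH992.T.q0_le
  refine ⟨10 * (1 - Real.log TH992.T.q0), ?_, ?_⟩
  · have := Real.log_nonpos q0.le q1
    linarith
  intro n a t hadm
  obtain ⟨ha, ht, hn⟩ := hadm
  obtain ⟨g, hg⟩ : ∃ g : ℕ, g = t * a := ⟨_, rfl⟩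
  have hga : 5 * a ≤ g := by rw [hg]; exact Nat.mul_le_mul_right a ht
  have haz : (1:ℤ) ≤ a := by exact_mod_cast ha
  rw [← hg] at hn
  have hgz : (g:ℤ) = t * a := by rw [hg]; push_cast; ring
  refine ⟨?_, ?_, ?_, ?_⟩
  · intro i hi
    rw [mem_range] at hi
    have hi' : (i:ℤ) + 2 ≤ 16 * t := by omega
    have hi2 : ((i:ℤ) + 2) * a ≤ 16 * g := by
      rw [hgz]; nlinarith
    have hi0 : 0 ≤ (i:ℤ) * a := by positivity
    rw [pow_two]
    refine and_ge (S := RE 0 n 0 n) (A := LRc ((i:ℤ) * a) (((i:ℤ) + 2) * a) 0 a)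
      (B := TBc (((i:ℤ) + 1) * a) (((i:ℤ) + 2) * a) 0 a) (LRc_incr _ _ _ _ _)
      (TBc_incr _ _ _ _ _) q0.le q0.le ?_ ?_
    · refine lr_ge0 (by nlinarith) (by omega) (by nlinarith) ?_
      refine LRE_subset_RE.trans (RE_subset hi0 ?_ le_rfl ?_)
      · omega
      · omega
    · refine tb_ge0 (by nlinarith) (by omega) (by nlinarith) ?_
      refine TBE_subset_RE.trans (RE_subset (by nlinarith) ?_ le_rfl ?_)
      · omega
      · omega
  · intro j hj
    have hj' : (j:ℤ) ≤ 16 * t := by omega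
    have hj2 : (j:ℤ) * a ≤ 16 * g := by
      rw [hgz]; nlinarith
    have hj0 : 0 ≤ (j:ℤ) * a := by positivity
    have e1 : ((j:ℤ) + 2) * a = (j:ℤ) * a + 2 * a := by ring
    have e2 : ((j:ℤ) + 1) * a = (j:ℤ) * a + a := by ring
    have e : PP (RE 0 n 0 n) (UA n a j) = PP (dmp (RE 0 n 0 n)) (fun F =>
        LRc ((j:ℤ) * a - 1) (((j:ℤ) + 2) * a) a (2 * a) F ∧
          TBc (((j:ℤ) + 1) * a - 1) (((j:ℤ) + 2) * a) a (2 * a) F) := by
      rw [← dual_eq]
      rfl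
    rw [e, pow_two]
    refine and_ge (LRc_incr _ _ _ _ _) (TBc_incr _ _ _ _ _) q0.le q0.le ?_ ?_
    · refine lr_ge0 (by omega) (by omega) (by omega) (lre_sub ?_ ?_ ?_ ?_)
      all_goals omega
    · refine tb_ge0 (by omega) (by omega) (by omega) (tbe_sub ?_ ?_ ?_ ?_)
      all_goals omega
  · have e : PP (RE 0 n 0 n) (NA n a (t * a)) = PP (dmp (RE 0 n 0 n)) (fun F =>
        TBc (16 * (g:ℤ) + a) (16 * (g:ℤ) + 2 * a) (-1) (2 * a) F ∧
          TBc (10 * (g:ℤ)) (11 * (g:ℤ)) a (2 * (g:ℤ)) F) := by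
      rw [← dual_eq, ← hg]
      rfl
    rw [e, pow_two]
    refine and_ge (TBc_incr _ _ _ _ _) (TBc_incr _ _ _ _ _) q0.le q0.le ?_ ?_
    · refine tb_ge0 (by omega) (by omega) (by omega) (tbe_sub ?_ ?_ ?_ ?_)
      all_goals omega
    · refine tb_ge0 (by omega) (by omega) (by omega) (tbe_sub ?_ ?_ ?_ ?_)
      all_goals omega
  · have hg1 : 1 ≤ g := by omega
    obtain ⟨m, hm⟩ : ∃ m : ℕ, m = n / g := ⟨_, rfl⟩
    obtain ⟨I, hI⟩ : ∃ I : ℕ, I = (n - g - 1) / (10 * g) + 1 := ⟨_, rfl⟩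
    have hm1 : n + 1 ≤ g * (m + 1) := by
      have := Nat.lt_mul_div_succ n hg1
      rw [hm]; omega
    have hm2 : m * g ≤ n := by rw [hm]; exact Nat.div_mul_le_self n g
    have hm16 : 16 ≤ m := by
      rw [hm, Nat.le_div_iff_mul_le hg1]; omega
    have hI0 : ∀ i < I, 10 * g * i + g + 1 ≤ n := by
      intro i hi
      have h1 : i ≤ (n - g - 1) / (10 * g) := by omega
      rw [Nat.le_div_iff_mul_le (by omega)] at h1
      have h2 : 10 * g * i = i * (10 * g) := by ring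
      omega
    have hI1 : ∀ i, 10 * g * i + g + 1 ≤ n → i < I := by
      intro i hi
      have h1 : i ≤ (n - g - 1) / (10 * g) := by
        rw [Nat.le_div_iff_mul_le (by omega)]
        have h2 : 10 * g * i = i * (10 * g) := by ring
        omega
      omega
    have hIm : I ≤ m := by
      have h1 : (n - g - 1) / (10 * g) ≤ n / (10 * g) := Nat.div_le_div_right (by omega)
      have h2 : n / (10 * g) = m / 10 := by
        rw [hm, mul_comm 10 g, Nat.div_div_eq_div_mul]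
      omega
    have hmz : (n:ℤ) + 1 ≤ 8 * g * m + 8 * g := by
      have : ((n + 1 : ℕ) : ℤ) ≤ ((g * (m + 1) : ℕ) : ℤ) := by exact_mod_cast hm1
      push_cast at this
      have h0 : (0:ℤ) ≤ (g:ℤ) * m := by positivity
      nlinarith
    have e : PP (RE 0 n 0 n) (ZA n (t * a)) = PP (dmp (RE 0 n 0 n)) (fun F =>
        LRc (10 * (g:ℤ)) (11 * (g:ℤ)) g (2 * (g:ℤ)) F ∧
        TBc (10 * (g:ℤ)) (11 * (g:ℤ)) g n F ∧
        (∀ i : ℕ, 2 ≤ i → 10 * (g:ℤ) * i + g + 1 ≤ n →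
          TBc (10 * (g:ℤ) * i) (10 * (g:ℤ) * i + g) (-1) n F) ∧
        (∀ j : ℕ, 1 ≤ j → 10 * (g:ℤ) * j + g + 1 ≤ n →
          LRc (-1) n (10 * (g:ℤ) * j) (10 * (g:ℤ) * j + g) F)) := by
      rw [← dual_eq, ← hg]
      rfl
    rw [e]
    have k1 : TH992.T.q0 ^ 1 ≤ PP (dmp (RE 0 n 0 n))
        (LRc (10 * (g:ℤ)) (11 * (g:ℤ)) g (2 * (g:ℤ))) := by
      rw [pow_one]
      refine lr_ge0 (by omega) (by omega) (by omega) (lre_sub ?_ ?_ ?_ ?_)
      all_goals omega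
    have k2 : TH992.T.q0 ^ (2 * m + 1) ≤ PP (dmp (RE 0 n 0 n))
        (TBc (10 * (g:ℤ)) (11 * (g:ℤ)) g n) := by
      refine tb_ge (by omega) (by omega) ?_ (tbe_sub ?_ ?_ ?_ ?_)
      · have : 11 * (g:ℤ) - 10 * g = g := by ring
        rw [this]
        omega
      all_goals omega
    have k3 : TH992.T.q0 ^ ((2 * m + 1) * I) ≤ PP (dmp (RE 0 n 0 n)) (fun F =>
        ∀ i < I, TBc (10 * (g:ℤ) * i) (10 * (g:ℤ) * i + g) (-1) n F) := by
      refine vstrips (by omega) (by omega) (by omega) (fun i => 10 * (g:ℤ) * i) I ?_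
      intro i hi
      have h1 := hI0 i hi
      have h2 : (((10 * g * i + g + 1 : ℕ)) : ℤ) ≤ n := by exact_mod_cast h1
      push_cast at h2
      have h0 : (0:ℤ) ≤ 10 * (g:ℤ) * i := by positivity
      refine tbe_sub ?_ ?_ ?_ ?_
      · exact h0
      all_goals omega
    have k4 : TH992.T.q0 ^ ((2 * m + 1) * I) ≤ PP (dmp (RE 0 n 0 n)) (fun F =>
        ∀ i < I, LRc (-1) n (10 * (g:ℤ) * i) (10 * (g:ℤ) * i + g) F) := by
      refine TH992.T.strips (by omega) (by omega) (by omega) (fun i => 10 * (g:ℤ) * i) I ?_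
      intro i hi
      have h1 := hI0 i hi
      have h2 : (((10 * g * i + g + 1 : ℕ)) : ℤ) ≤ n := by exact_mod_cast h1
      push_cast at h2
      have h0 : (0:ℤ) ≤ 10 * (g:ℤ) * i := by positivity
      refine lre_sub ?_ ?_ ?_ ?_
      · omega
      · omega
      · exact h0
      · omega
    have i3 : IncrE (dmp (RE 0 n 0 n)) (fun F =>
        ∀ i < I, TBc (10 * (g:ℤ) * i) (10 * (g:ℤ) * i + g) (-1) n F) :=
      fun F G h h' hF i hi => TBc_incr _ _ _ _ _ F G h h' (hF i hi)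
    have i4 : IncrE (dmp (RE 0 n 0 n)) (fun F =>
        ∀ i < I, LRc (-1) n (10 * (g:ℤ) * i) (10 * (g:ℤ) * i + g) F) :=
      fun F G h h' hF i hi => LRc_incr _ _ _ _ _ F G h h' (hF i hi)
    have p0 : ∀ k : ℕ, 0 ≤ TH992.T.q0 ^ k := fun k => pow_nonneg q0.le k
    have j34 := and_ge i3 i4 (p0 _) (p0 _) k3 k4
    have i34 := and_incr i3 i4
    have j234 := and_ge (TBc_incr _ _ _ _ _) i34 (p0 _) (mul_nonneg (p0 _) (p0 _)) k2 j34
    have i234 := and_incr (TBc_incr (dmp (RE 0 n 0 n)) (10 * (g:ℤ)) (11 * (g:ℤ)) g n) i34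
    have j1234 := and_ge (LRc_incr _ _ _ _ _) i234 (p0 _)
      (mul_nonneg (p0 _) (mul_nonneg (p0 _) (p0 _))) k1 j234
    refine le_trans ?_ (j1234.trans (Pr_mono okh ?_))
    · rw [← pow_add, ← pow_add, ← pow_add]
      have hgR : (0:ℝ) < g := by exact_mod_cast hg1
      have hgR' : (g:ℝ) = t * a := by rw [hg]; push_cast; ring
      rw [← hgR']
      obtain ⟨x, hx⟩ : ∃ x : ℝ, x = (n:ℝ) / g := ⟨_, rfl⟩
      have hmx : (m:ℝ) ≤ x := by
        rw [hx, le_div_iff₀ hgR]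
        exact_mod_cast hm2
      have hIx : (I:ℝ) ≤ m := by exact_mod_cast hIm
      have hm16' : (16:ℝ) ≤ m := by exact_mod_cast hm16
      have hI0' : (0:ℝ) ≤ I := Nat.cast_nonneg I
      rw [← hx]
      have hexp : ((1 + (2 * m + 1 + ((2 * m + 1) * I + (2 * m + 1) * I)) : ℕ) : ℝ) ≤
          10 * x ^ 2 := by
        push_cast
        nlinarith
      have hq : TH992.T.q0 = Real.exp (Real.log TH992.T.q0) := (Real.exp_log q0).symm
      have hl := Real.log_nonpos q0.le q1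
      rw [show TH992.T.q0 ^ (1 + (2 * m + 1 + ((2 * m + 1) * I + (2 * m + 1) * I))) =
        Real.exp (((1 + (2 * m + 1 + ((2 * m + 1) * I + (2 * m + 1) * I)) : ℕ) : ℝ) *
          Real.log TH992.T.q0) by
          rw [Real.exp_nat_mul, Real.exp_log q0]]
      rw [Real.exp_le_exp]
      nlinarith [sq_nonneg x]
    · intro F _ hF
      refine ⟨hF.1, hF.2.1, ?_, ?_⟩
      · intro i _ hi
        exact hF.2.2.1 i (hI1 i (by exact_mod_cast hi))
      · intro i _ hi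
        exact hF.2.2.2 i (hI1 i (by exact_mod_cast hi))

end W78LT
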